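import Pool.Agent.J4H81.GD.Amp

set_option autoImplicit false

/-! The bounds of a block: `BA` (trivial) and `BB` (with a saving). -/

namespace Pool.Agent.J4H81.GD

open Complex Filter Topology MeasureTheory Set
open Pool.Agent.N879.GD

noncomputable section

/-- partial summation -/
theorem psum (f g : ℕ → ℂ) (L : ℕ) (A D M : ℝ) (hA : ∀ r < L, ‖f r‖ ≤ A) (hD0 : 0 ≤ D) (hA0 : 0 ≤ A)
    (hD : ∀ r, r + 1 < L → ‖f (r + 1) - f r‖ ≤ D) (hM : ∀ k ≤ L, ‖∑ r ∈ Finset.range k, g r‖ ≤ M) :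
    ‖∑ r ∈ Finset.range L, f r * g r‖ ≤ (A + L * D) * M := by
  have hM0 : 0 ≤ M := (norm_nonneg _).trans (hM 0 (Nat.zero_le _))
  rcases Nat.eq_zero_or_pos L with hL | hL
  · subst hL
    simp
    positivity
  have h := Finset.sum_range_by_parts f g L
  simp only [smul_eq_mul] at h
  rw [h]
  have h1 : ‖f (L - 1) * ∑ i ∈ Finset.range L, g i‖ ≤ A * M := by
    rw [norm_mul]
    exact mul_le_mul (hA _ (by omega)) (hM L le_rfl) (norm_nonneg _) hA0
  have h2 : ‖∑ i ∈ Finset.range (L - 1), (f (i + 1) - f i) * ∑ j ∈ Finset.range (i + 1), g j‖ ≤ L * D * M := by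
    calc _ ≤ ∑ i ∈ Finset.range (L - 1), ‖(f (i + 1) - f i) * ∑ j ∈ Finset.range (i + 1), g j‖ :=
          norm_sum_le _ _
      _ ≤ ∑ i ∈ Finset.range (L - 1), D * M := by
          apply Finset.sum_le_sum
          intro i hi
          rw [Finset.mem_range] at hi
          rw [norm_mul]
          exact mul_le_mul (hD i (by omega)) (hM _ (by omega)) (norm_nonneg _) hD0
      _ = (L - 1 : ℕ) * (D * M) := by rw [Finset.sum_const, Finset.card_range, nsmul_eq_mul]
      _ ≤ L * (D * M) := by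
          gcongr
          omega
      _ = _ := by ring
  calc _ ≤ ‖f (L - 1) * ∑ i ∈ Finset.range L, g i‖ +
        ‖∑ i ∈ Finset.range (L - 1), (f (i + 1) - f i) * ∑ j ∈ Finset.range (i + 1), g j‖ := norm_sub_le _ _
    _ ≤ A * M + L * D * M := add_le_add h1 h2
    _ = _ := by ring

theorem t_BA (hGK : S_GK) : S_BA := by
  intro b hb
  obtain ⟨C, hC, h⟩ := am_norm hGK b hb
  refine ⟨C, hC, fun σ T y ω m R L hσ hσ1 hT hm hR hL hz => ?_⟩
  have hLR : (L : ℝ) ≤ R := by exact_mod_cast hL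
  have hR0 : (1 : ℝ) ≤ R := by exact_mod_cast hR
  set P := (√((m : ℝ) * (m + R)))⁻¹ * (1 + |ω|) ^ (-(1 / 2 : ℝ)) *
      ((1 + |ω|) / zz T m R) ^ b * Real.exp (-(|ω| / (4 * zz T m R))) with hP
  have hP0 : 0 ≤ P := by
    have : 0 < zz T m R := by linarith
    positivity
  have hterm : ∀ r ∈ Finset.range L, ‖bt σ b T y ω m (m + R + r)‖ ≤ C * P := by
    intro r hr
    rw [Finset.mem_range] at hr
    have hr' : (r : ℝ) ≤ R := by exact_mod_cast (by omega : r ≤ R)
    rw [bt_eq σ b T y ω m R r hm hR, norm_mul]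
    have e1 : ‖cexp (I * ((ω * Real.log (Real.log (1 + ((R : ℝ) + r) / m)) : ℝ) : ℂ))‖ = 1 := by
      rw [mul_comm, Complex.norm_exp_ofReal_mul_I]
    rw [e1, mul_one]
    exact h σ T y ω m R _ hσ hT hm hR hz (by have := Nat.cast_nonneg (α := ℝ) r; linarith) (by linarith)
  calc _ ≤ ∑ r ∈ Finset.range L, ‖bt σ b T y ω m (m + R + r)‖ := norm_sum_le _ _
    _ ≤ ∑ r ∈ Finset.range L, C * P := Finset.sum_le_sum hterm
    _ = L * (C * P) := by rw [Finset.sum_const, Finset.card_range, nsmul_eq_mul]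
    _ ≤ R * (C * P) := by gcongr
    _ = _ := by rw [hP]; ring

theorem t_BB (hGF : S_GF) (hGK : S_GK) (hLL : S_LL) : S_BB := by
  obtain ⟨η, hη, hη1, C₂, hC₂, hLL⟩ := hLL
  refine ⟨η, hη, hη1, fun b hb => ?_⟩
  obtain ⟨C, hC, h⟩ := am_norm hGK b hb
  refine ⟨C * (3 + b) * C₂, by positivity, fun σ T y ω m R L hσ hσ1 hT hm hR hL hz hk1 hk2 => ?_⟩
  have hLR : (L : ℝ) ≤ R := by exact_mod_cast hL
  have hR0 : (1 : ℝ) ≤ R := by exact_mod_cast hR
  have hm0 : (1 : ℝ) ≤ m := by exact_mod_cast hm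
  have hz0 : 0 < zz T m R := by linarith
  set P := (√((m : ℝ) * (m + R)))⁻¹ * (1 + |ω|) ^ (-(1 / 2 : ℝ)) *
      ((1 + |ω|) / zz T m R) ^ b * Real.exp (-(|ω| / (4 * zz T m R))) with hP
  have hP0 : 0 ≤ P := by positivity
  set M := C₂ * ((R : ℝ) ^ (1 - η) + R / (kap m R * |ω|)) with hM
  set G := (3 / 2 + |y| + b + |ω| / zz T m R) with hG
  have hG0 : 0 ≤ G := by positivity
  have hM' : ∀ k ≤ L, ‖∑ r ∈ Finset.range k,
      cexp (I * ((ω * Real.log (Real.log (1 + ((R : ℝ) + r) / m)) : ℝ) : ℂ))‖ ≤ M := by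
    intro k hk
    have hkR : (k : ℝ) ≤ R := by exact_mod_cast hk.trans hL
    exact hLL m R k R ω hm hR le_rfl (hk.trans hL) (by linarith) hk1 hk2
  have hM0 : 0 ≤ M := (norm_nonneg _).trans (hM' 0 (Nat.zero_le _))
  have hdiff : ∀ r, r + 1 < L → ‖am σ b T y ω m ((R : ℝ) + ((r + 1 : ℕ) : ℝ)) - am σ b T y ω m ((R : ℝ) + r)‖ ≤
      G / R * (C * P) := by
    intro r hr
    have hr' : (r : ℝ) + 1 ≤ R := by exact_mod_cast (by omega : r + 1 ≤ R)
    have hr0 : (0 : ℝ) ≤ r := Nat.cast_nonneg r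
    have hmv := Convex.norm_image_sub_le_of_norm_hasDerivWithin_le (f := am σ b T y ω m)
      (f' := fun t => gd σ b T y ω m t * am σ b T y ω m t) (s := Icc (R : ℝ) (2 * R)) (C := G / R * (C * P))
      (x := (R : ℝ) + r) (y := (R : ℝ) + ((r + 1 : ℕ) : ℝ))
      (fun t ht => (am_deriv hGF σ b T y ω m t hb hT hm (by linarith [ht.1])).hasDerivWithinAt)
      (fun t ht => by
        rw [norm_mul]
        exact mul_le_mul (gd_norm hσ hσ1 hT hm hR hz ht.1) (h σ T y ω m R t hσ hT hm hR hz ht.1 ht.2)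
          (norm_nonneg _) (by positivity))
      (convex_Icc _ _) ⟨by linarith, by linarith⟩ ⟨by push_cast; linarith, by push_cast; linarith⟩
    refine hmv.trans (le_of_eq ?_)
    have : (R : ℝ) + ((r + 1 : ℕ) : ℝ) - ((R : ℝ) + r) = 1 := by push_cast; ring
    rw [this]; simp
  have hmain := psum (fun r => am σ b T y ω m ((R : ℝ) + r))
    (fun r => cexp (I * ((ω * Real.log (Real.log (1 + ((R : ℝ) + r) / m)) : ℝ) : ℂ))) L (C * P)
    (G / R * (C * P)) M (fun r hr => by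
      have hr' : (r : ℝ) ≤ R := by exact_mod_cast (by omega : r ≤ R)
      exact h σ T y ω m R _ hσ hT hm hR hz (by have := Nat.cast_nonneg (α := ℝ) r; linarith) (by linarith))
    (by positivity) (by positivity) hdiff hM'
  have he : ∑ r ∈ Finset.range L, bt σ b T y ω m (m + R + r) =
      ∑ r ∈ Finset.range L, am σ b T y ω m ((R : ℝ) + r) *
        cexp (I * ((ω * Real.log (Real.log (1 + ((R : ℝ) + r) / m)) : ℝ) : ℂ)) :=
    Finset.sum_congr rfl fun r _ => bt_eq σ b T y ω m R r hm hR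
  rw [he]
  refine hmain.trans ?_
  have h1 : C * P + L * (G / R * (C * P)) ≤ (C * P) * (1 + G) := by
    have : (L : ℝ) * (G / R * (C * P)) ≤ R * (G / R * (C * P)) := by gcongr
    have h2 : (R : ℝ) * (G / R * (C * P)) = G * (C * P) := by field_simp
    linarith
  have h2 : 1 + G ≤ (3 + b) * ((1 + |y|) * (1 + (1 + |ω|) / zz T m R)) := by
    rw [hG]
    have hy := abs_nonneg y
    have hb0 : (0 : ℝ) ≤ b := Nat.cast_nonneg b
    have hw : |ω| / zz T m R ≤ (1 + |ω|) / zz T m R := by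
      apply div_le_div_of_nonneg_right _ hz0.le
      linarith
    have hw0 : 0 ≤ |ω| / zz T m R := by positivity
    set q := (1 + |ω|) / zz T m R with hq
    have hq0 : 0 ≤ q := hw0.trans hw
    nlinarith [mul_nonneg hy hq0, mul_nonneg hb0 hy, mul_nonneg hb0 hq0, mul_nonneg hb0 (mul_nonneg hy hq0)]
  calc (C * P + L * (G / R * (C * P))) * M ≤ ((C * P) * (1 + G)) * M := by gcongr
    _ ≤ ((C * P) * ((3 + b) * ((1 + |y|) * (1 + (1 + |ω|) / zz T m R)))) * M := by gcongr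
    _ = _ := by rw [hP, hM]; ring

end

end Pool.Agent.J4H81.GD
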