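import Pool.Agent.N879.GD.Stm

set_option autoImplicit false

/-! Amplitude of the terms on a block. -/

namespace Pool.Agent.J4H81.GD

open Complex Filter Topology MeasureTheory Set
open Pool.Agent.N879.GD

noncomputable section

/-- the logarithm of `n / m` at `n = m + t` -/
def xx (m : ℕ) (t : ℝ) : ℝ := Real.log (m + t) - Real.log m

theorem xx_eq {m : ℕ} {t : ℝ} (hm : 1 ≤ m) (ht : 0 < t) : xx m t = Real.log (1 + t / m) := by
  have hm0 : (0 : ℝ) < m := by exact_mod_cast hm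
  unfold xx
  rw [← Real.log_div (by positivity) (by positivity)]
  congr 1
  field_simp

theorem xx_ge {m : ℕ} {t : ℝ} (hm : 1 ≤ m) (ht : 0 < t) : t / (m + t) ≤ xx m t := by
  have hm0 : (0 : ℝ) < m := by exact_mod_cast hm
  rw [xx_eq hm ht]
  have h1 := Real.one_sub_inv_le_log_of_pos (show 0 < 1 + t / m by positivity)
  have h2 : 1 - (1 + t / m)⁻¹ = t / (m + t) := by field_simp; ring
  linarith

theorem xx_pos {m : ℕ} {t : ℝ} (hm : 1 ≤ m) (ht : 0 < t) : 0 < xx m t := by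
  have hm0 : (0 : ℝ) < m := by exact_mod_cast hm
  exact lt_of_lt_of_le (by positivity) (xx_ge hm ht)

theorem zz_le {T : ℝ} {m R : ℕ} {t : ℝ} (hT : 0 < T) (hm : 1 ≤ m) (hR : 1 ≤ R) (ht : (R : ℝ) ≤ t) :
    zz T m R ≤ T * xx m t := by
  have hm0 : (0 : ℝ) < m := by exact_mod_cast hm
  have hR0 : (0 : ℝ) < R := by exact_mod_cast hR
  rw [xx_eq hm (by linarith)]
  unfold zz
  gcongr

theorem le_zz {T : ℝ} {m R : ℕ} {t : ℝ} (hT : 0 < T) (hm : 1 ≤ m) (hR : 1 ≤ R) (ht : (R : ℝ) ≤ t)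
    (ht2 : t ≤ 2 * R) : T * xx m t ≤ 2 * zz T m R := by
  have hm0 : (0 : ℝ) < m := by exact_mod_cast hm
  have hR0 : (0 : ℝ) < R := by exact_mod_cast hR
  rw [xx_eq hm (by linarith)]
  unfold zz
  have h1 : Real.log (1 + t / m) ≤ 2 * Real.log (1 + R / m) := by
    have : 2 * Real.log (1 + (R : ℝ) / m) = Real.log ((1 + (R : ℝ) / m) ^ 2) := by
      rw [Real.log_pow]; norm_num
    rw [this]
    apply Real.log_le_log (by have : 0 < t := by linarith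
                              positivity)
    have h2 : t / m ≤ 2 * (R / m) := by
      rw [← mul_div_assoc]
      gcongr
    nlinarith [sq_nonneg ((R : ℝ) / m)]
  nlinarith

/-- the amplitude -/
def am (σ : ℝ) (b : ℕ) (T y ω : ℝ) (m : ℕ) (t : ℝ) : ℂ :=
  (((√((m : ℝ) * (m + t)))⁻¹ : ℝ) : ℂ) * cexp (-((σ + I * y) * (Real.log ((m : ℝ) * (m + t)) : ℝ))) *
    GG b T (xx m t) ω * cexp (-(I * ((ω * Real.log (xx m t) : ℝ) : ℂ)))

theorem bt_eq (σ : ℝ) (b : ℕ) (T y ω : ℝ) (m R r : ℕ) (hm : 1 ≤ m) (hR : 1 ≤ R) :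
    bt σ b T y ω m (m + R + r) = am σ b T y ω m ((R : ℝ) + r) *
      cexp (I * ((ω * Real.log (Real.log (1 + ((R : ℝ) + r) / m)) : ℝ) : ℂ)) := by
  have hR0 : (0 : ℝ) < R := by exact_mod_cast hR
  have hr0 : (0 : ℝ) ≤ r := Nat.cast_nonneg r
  have e1 : (((m + R + r : ℕ) : ℝ)) = m + ((R : ℝ) + r) := by push_cast; ring
  unfold bt am
  rw [e1, ← xx_eq hm (by linarith : 0 < (R : ℝ) + r)]
  have e2 : Real.log (m + ((R : ℝ) + r)) - Real.log m = xx m ((R : ℝ) + r) := rfl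
  rw [e2]
  have e3 : cexp (-(I * ((ω * Real.log (xx m ((R : ℝ) + r)) : ℝ) : ℂ))) *
      cexp (I * ((ω * Real.log (xx m ((R : ℝ) + r)) : ℝ) : ℂ)) = 1 := by
    rw [← Complex.exp_add]; simp
  rw [mul_assoc (_ * _ * _), e3, mul_one]

/-- the size of the amplitude -/
theorem am_norm (hGK : S_GK) (b : ℕ) (hb : 1 ≤ b) : ∃ C : ℝ, 0 < C ∧ ∀ (σ T y ω : ℝ) (m R : ℕ) (t : ℝ),
    0 ≤ σ → 0 < T → 1 ≤ m → 1 ≤ R → 1 ≤ zz T m R → (R : ℝ) ≤ t → t ≤ 2 * R →
    ‖am σ b T y ω m t‖ ≤ C * ((√((m : ℝ) * (m + R)))⁻¹ * (1 + |ω|) ^ (-(1 / 2 : ℝ)) *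
      ((1 + |ω|) / zz T m R) ^ b * Real.exp (-(|ω| / (4 * zz T m R)))) := by
  obtain ⟨C, hC, h⟩ := hGK b hb
  refine ⟨C, hC, fun σ T y ω m R t hσ hT hm hR hz ht ht2 => ?_⟩
  have hm0 : (0 : ℝ) < m := by exact_mod_cast hm
  have hm1 : (1 : ℝ) ≤ m := by exact_mod_cast hm
  have hR0 : (0 : ℝ) < R := by exact_mod_cast hR
  have ht0 : 0 < t := by linarith
  have hx := xx_pos hm ht0
  have h1 := zz_le hT hm hR ht
  have h2 := le_zz hT hm hR ht ht2
  have hGG := h T (xx m t) ω hT (by rw [abs_of_pos hx]; linarith)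
  rw [abs_of_pos hx, mul_comm (xx m t) T] at hGG
  unfold am
  rw [norm_mul, norm_mul, norm_mul]
  have e1 : ‖cexp (-(I * ((ω * Real.log (xx m t) : ℝ) : ℂ)))‖ = 1 := by
    rw [Complex.norm_exp]; simp
  have e2 : ‖cexp (-((σ + I * y) * (Real.log ((m : ℝ) * (m + t)) : ℝ)))‖ ≤ 1 := by
    rw [Complex.norm_exp]
    apply Real.exp_le_one_iff.2
    have : (-(((σ : ℂ) + I * y) * ((Real.log ((m : ℝ) * (m + t)) : ℝ) : ℂ))).re =
        -(σ * Real.log ((m : ℝ) * (m + t))) := by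
      simp
    rw [this]
    have : 0 ≤ Real.log ((m : ℝ) * (m + t)) := Real.log_nonneg (by nlinarith)
    have := mul_nonneg hσ this
    linarith
  have e3 : ‖(((√((m : ℝ) * (m + t)))⁻¹ : ℝ) : ℂ)‖ ≤ (√((m : ℝ) * (m + R)))⁻¹ := by
    rw [Complex.norm_real, Real.norm_of_nonneg (by positivity)]
    gcongr
  rw [e1, mul_one]
  have hz0 : 0 < zz T m R := by linarith
  have e4 : ‖GG b T (xx m t) ω‖ ≤ C * (1 + |ω|) ^ (-(1 / 2 : ℝ)) *
      ((1 + |ω|) / zz T m R) ^ b * Real.exp (-(|ω| / (4 * zz T m R))) := by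
    refine hGG.trans ?_
    gcongr ?_ * ?_ ^ b * Real.exp (-?_)
    · gcongr
    · have : 2 * (T * xx m t) ≤ 4 * zz T m R := by linarith
      have hp : 0 < 2 * (T * xx m t) := by positivity
      exact div_le_div_of_nonneg_left (abs_nonneg _) hp this
  calc _ ≤ (√((m : ℝ) * (m + R)))⁻¹ * 1 * (C * (1 + |ω|) ^ (-(1 / 2 : ℝ)) *
      ((1 + |ω|) / zz T m R) ^ b * Real.exp (-(|ω| / (4 * zz T m R)))) := by
        gcongr
    _ = _ := by ring

/-- the logarithmic derivative of the amplitude -/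
def gd (σ : ℝ) (b : ℕ) (T y ω : ℝ) (m : ℕ) (t : ℝ) : ℂ :=
  ((m : ℂ) + t)⁻¹ * (-(1 / 2 + σ + I * y) + I * b / ((T : ℂ)⁻¹ - I * xx m t) -
    I * ω / (T * ((T : ℂ)⁻¹ - I * xx m t) * xx m t))

theorem am_deriv (hGF : S_GF) (σ : ℝ) (b : ℕ) (T y ω : ℝ) (m : ℕ) (t : ℝ) (hb : 1 ≤ b) (hT : 0 < T)
    (hm : 1 ≤ m) (ht : 0 < t) :
    HasDerivAt (am σ b T y ω m) (gd σ b T y ω m t * am σ b T y ω m t) t := by
  have hm0 : (0 : ℝ) < m := by exact_mod_cast hm
  -- closed form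
  set K : ℂ := ((T : ℂ) ^ b)⁻¹ * Gamma ((b : ℂ) - I * ω) with hK
  set g : ℝ → ℂ := fun s => -((1 / 2 + σ + I * y) * (((Real.log m + Real.log (m + s)) : ℝ) : ℂ)) +
    (-((b : ℂ) - I * ω) * Complex.log ((T : ℂ)⁻¹ - I * (xx m s : ℝ))) -
    I * ω * ((Real.log (xx m s) : ℝ) : ℂ) with hg
  have hcl : ∀ s : ℝ, 0 < s → am σ b T y ω m s = K * cexp (g s) := by
    intro s hs
    have hl : Real.log ((m : ℝ) * (m + s)) = Real.log m + Real.log (m + s) :=
      Real.log_mul (by positivity) (by positivity)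
    have e1 : (((√((m : ℝ) * (m + s)))⁻¹ : ℝ) : ℂ) =
        cexp (-((1 / 2 : ℂ) * (((Real.log m + Real.log (m + s)) : ℝ) : ℂ))) := by
      rw [← hl]
      have : (√((m : ℝ) * (m + s)))⁻¹ = Real.exp (-(1 / 2 * Real.log ((m : ℝ) * (m + s)))) := by
        rw [Real.exp_neg, Real.sqrt_eq_rpow, Real.rpow_def_of_pos (by positivity)]
        congr 2
        ring
      rw [this]
      push_cast
      ring_nf
    unfold am
    rw [(hGF b T (xx m s) ω hb hT).2, e1, hl, hK, hg]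
    simp only
    rw [show -((1 / 2 + (σ : ℂ) + I * y) * (((Real.log m + Real.log (m + s)) : ℝ) : ℂ)) +
        (-((b : ℂ) - I * ω) * Complex.log ((T : ℂ)⁻¹ - I * (xx m s : ℝ))) -
        I * ω * ((Real.log (xx m s) : ℝ) : ℂ) =
      -((1 / 2 : ℂ) * (((Real.log m + Real.log (m + s)) : ℝ) : ℂ)) +
        (-(((σ : ℂ) + I * y) * (((Real.log m + Real.log (m + s)) : ℝ) : ℂ))) +
        (-((b : ℂ) - I * ω) * Complex.log ((T : ℂ)⁻¹ - I * (xx m s : ℝ))) +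
        (-(I * ((ω * Real.log (xx m s) : ℝ) : ℂ))) by push_cast; ring]
    rw [Complex.exp_add, Complex.exp_add, Complex.exp_add]
    ring
  have hxd : HasDerivAt (fun s : ℝ => xx m s) ((m + t)⁻¹) t := by
    unfold xx
    have h1 : HasDerivAt (fun s : ℝ => (m : ℝ) + s) 1 t := by
      simpa using (hasDerivAt_id t).const_add (m : ℝ)
    have h2 := h1.log (by positivity)
    simpa using h2.sub_const (Real.log m)
  have hx := xx_pos hm ht
  have hld : HasDerivAt (fun s : ℝ => Real.log m + Real.log (m + s)) ((m + t)⁻¹) t := by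
    have h1 : HasDerivAt (fun s : ℝ => (m : ℝ) + s) 1 t := by
      simpa using (hasDerivAt_id t).const_add (m : ℝ)
    have h2 := h1.log (by positivity)
    simpa using h2.const_add (Real.log m)
  have hw : ((T : ℂ)⁻¹ - I * (xx m t : ℝ)) ∈ slitPlane := by
    left
    simp
    positivity
  have hw0 : ((T : ℂ)⁻¹ - I * (xx m t : ℝ)) ≠ 0 := slitPlane_ne_zero hw
  have d1 : HasDerivAt (fun s : ℝ => (xx m s : ℂ)) (((m + t)⁻¹ : ℝ) : ℂ) t := hxd.ofReal_comp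
  have d2 : HasDerivAt (fun s : ℝ => ((T : ℂ)⁻¹ - I * (xx m s : ℝ))) (-(I * (((m + t)⁻¹ : ℝ) : ℂ))) t := by
    simpa using (d1.const_mul I).const_sub ((T : ℂ)⁻¹)
  have d3 := d2.clog_real hw
  have d4 : HasDerivAt (fun s : ℝ => ((Real.log (xx m s) : ℝ) : ℂ)) (((((m + t)⁻¹ : ℝ) / xx m t : ℝ)) : ℂ) t :=
    (hxd.log hx.ne').ofReal_comp
  have d5 : HasDerivAt (fun s : ℝ => (((Real.log m + Real.log (m + s)) : ℝ) : ℂ)) (((m + t)⁻¹ : ℝ) : ℂ) t :=
    hld.ofReal_comp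
  have hgd : HasDerivAt g (gd σ b T y ω m t) t := by
    have := (((d5.const_mul (1 / 2 + (σ : ℂ) + I * y)).neg).add (d3.const_mul (-((b : ℂ) - I * ω)))).sub
      (d4.const_mul (I * ω))
    refine this.congr_deriv ?_
    unfold gd
    have hxc : ((xx m t : ℝ) : ℂ) ≠ 0 := by exact_mod_cast hx.ne'
    have hTc : (T : ℂ) ≠ 0 := by exact_mod_cast hT.ne'
    have hmt : ((m : ℂ) + t) ≠ 0 := by
      have : ((m : ℝ) + t) ≠ 0 := by positivity
      exact_mod_cast this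
    push_cast
    generalize ((xx m t : ℝ) : ℂ) = X at *
    have hw1 : 1 - I * X * T ≠ 0 := by
      intro h
      apply hw0
      field_simp
      linear_combination h
    have hw2 : (T : ℂ)⁻¹ - I * X = (1 - I * X * T) / T := by field_simp
    rw [hw2]
    field_simp
    ring_nf
  have hmain : HasDerivAt (fun s => K * cexp (g s)) (gd σ b T y ω m t * (K * cexp (g t))) t := by
    have := (hgd.cexp).const_mul K
    refine this.congr_deriv ?_
    ring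
  have hev : (am σ b T y ω m) =ᶠ[𝓝 t] (fun s => K * cexp (g s)) := by
    filter_upwards [lt_mem_nhds ht] with s hs
    exact hcl s hs
  rw [hcl t ht]
  exact hmain.congr_of_eventuallyEq hev

theorem gd_norm {σ : ℝ} {b : ℕ} {T y ω : ℝ} {m R : ℕ} {t : ℝ} (hσ : 0 ≤ σ) (hσ1 : σ ≤ 1) (hT : 0 < T)
    (hm : 1 ≤ m) (hR : 1 ≤ R) (hz : 1 ≤ zz T m R) (ht : (R : ℝ) ≤ t) :
    ‖gd σ b T y ω m t‖ ≤ (3 / 2 + |y| + b + |ω| / zz T m R) / R := by
  have hm0 : (0 : ℝ) < m := by exact_mod_cast hm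
  have hR0 : (0 : ℝ) < R := by exact_mod_cast hR
  have ht0 : 0 < t := by linarith
  have hx := xx_pos hm ht0
  have hxg := xx_ge hm ht0
  have hzl := zz_le hT hm hR ht
  have hz0 : 0 < zz T m R := by linarith
  set w : ℂ := (T : ℂ)⁻¹ - I * xx m t with hw
  have hwn : xx m t ≤ ‖w‖ := by
    have h1 : |w.im| ≤ ‖w‖ := abs_im_le_norm w
    have h2 : w.im = -(xx m t) := by
      rw [hw]; simp
    rw [h2, abs_neg, abs_of_pos hx] at h1
    exact h1
  have hw0 : 0 < ‖w‖ := hx.trans_le hwn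
  -- `1 / ((m + t) x) ≤ 1 / R`
  have hk : (m + t)⁻¹ * (xx m t)⁻¹ ≤ (R : ℝ)⁻¹ := by
    rw [← mul_inv]
    apply inv_anti₀ hR0
    have : (m + t) * (t / (m + t)) ≤ (m + t) * xx m t := by gcongr
    have h2 : (m + t) * (t / (m + t)) = t := by field_simp
    linarith
  have hk2 : (m + t)⁻¹ ≤ (R : ℝ)⁻¹ := inv_anti₀ hR0 (by linarith)
  unfold gd
  rw [← hw]
  have e0 : ‖((m : ℂ) + t)⁻¹‖ = (m + t)⁻¹ := by
    rw [norm_inv]
    have : ((m : ℂ) + t) = ((m + t : ℝ) : ℂ) := by push_cast; ring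
    rw [this, Complex.norm_real, Real.norm_of_nonneg (by positivity)]
  rw [norm_mul, e0]
  have e1 : ‖-(1 / 2 + (σ : ℂ) + I * y)‖ ≤ 3 / 2 + |y| := by
    rw [norm_neg]
    have h1 : ‖(1 / 2 + (σ : ℂ))‖ ≤ 3 / 2 := by
      have : (1 / 2 + (σ : ℂ)) = ((1 / 2 + σ : ℝ) : ℂ) := by push_cast; ring
      rw [this, Complex.norm_real, Real.norm_of_nonneg (by linarith)]
      linarith
    have h2 : ‖I * (y : ℂ)‖ = |y| := by
      rw [norm_mul, Complex.norm_I, one_mul, Complex.norm_real, Real.norm_eq_abs]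
    calc _ ≤ ‖(1 / 2 + (σ : ℂ))‖ + ‖I * (y : ℂ)‖ := norm_add_le _ _
      _ ≤ _ := by rw [h2]; linarith
  have e2 : ‖I * (b : ℂ) / w‖ ≤ b * (xx m t)⁻¹ := by
    rw [norm_div, norm_mul, Complex.norm_I, one_mul, Complex.norm_natCast, div_eq_mul_inv]
    gcongr
  have e3 : ‖I * (ω : ℂ) / (T * w * xx m t)‖ ≤ |ω| / zz T m R * (xx m t)⁻¹ := by
    rw [norm_div, norm_mul, Complex.norm_I, one_mul, norm_mul, norm_mul, Complex.norm_real,
      Complex.norm_real, Complex.norm_real, Real.norm_eq_abs, Real.norm_of_nonneg hT.le,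
      Real.norm_of_nonneg hx.le]
    have : |ω| / zz T m R * (xx m t)⁻¹ = |ω| / (zz T m R * xx m t) := by field_simp
    rw [this]
    apply div_le_div_of_nonneg_left (abs_nonneg _) (by positivity)
    have : zz T m R ≤ T * ‖w‖ := hzl.trans (by gcongr)
    gcongr
  calc _ ≤ (m + t)⁻¹ * ((3 / 2 + |y|) + b * (xx m t)⁻¹ + |ω| / zz T m R * (xx m t)⁻¹) := by
        apply mul_le_mul_of_nonneg_left _ (by positivity)
        calc _ ≤ ‖-(1 / 2 + (σ : ℂ) + I * y) + I * b / w‖ + ‖I * (ω : ℂ) / (T * w * xx m t)‖ := norm_sub_le _ _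
          _ ≤ (‖-(1 / 2 + (σ : ℂ) + I * y)‖ + ‖I * (b : ℂ) / w‖) + ‖I * (ω : ℂ) / (T * w * xx m t)‖ := by
              gcongr; exact norm_add_le _ _
          _ ≤ _ := by gcongr
    _ = (3 / 2 + |y|) * (m + t)⁻¹ + (b + |ω| / zz T m R) * ((m + t)⁻¹ * (xx m t)⁻¹) := by ring
    _ ≤ (3 / 2 + |y|) * (R : ℝ)⁻¹ + (b + |ω| / zz T m R) * (R : ℝ)⁻¹ := by gcongr
    _ = _ := by ring

end

end Pool.Agent.J4H81.GD
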