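import Pool.Agent.N879.GD.Stm

set_option autoImplicit false

/-! `LEW`: smooth compactly supported weights. -/

namespace Pool.Agent.J4H81.GD

open Complex Filter Topology MeasureTheory Set
open Pool.Agent.Y969.GP (ff V ht lam PS co PX)
open Pool.Agent.N879.GD
open scoped FourierTransform SchwartzMap

noncomputable section

/-- Fourier inversion for a smooth compactly supported weight -/
theorem invF (a : ℝ) (w : ℝ → ℝ) (hw : ContDiff ℝ (⊤ : ℕ∞) w) (hcs : HasCompactSupport w)
    (hsupp : tsupport w ⊆ Ioi 0) : ∃ h : ℝ → ℂ, Integrable h ∧ ∀ x : ℝ,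
    ((w (Real.exp x) * Real.exp (-(a * x)) * Real.exp (Real.exp x) : ℝ) : ℂ) =
      ∫ ξ : ℝ, cexp (((2 * Real.pi * (ξ * x) : ℝ) : ℂ) * I) * h ξ := by
  set k : ℝ → ℂ := fun x => ((w (Real.exp x) * Real.exp (-(a * x)) * Real.exp (Real.exp x) : ℝ) : ℂ) with hk
  have hsm : ContDiff ℝ (⊤ : ℕ∞) k := by
    apply Complex.ofRealCLM.contDiff.comp
    have h1 : ContDiff ℝ (⊤ : ℕ∞) (fun x : ℝ => w (Real.exp x)) := hw.comp Real.contDiff_exp
    have h2 : ContDiff ℝ (⊤ : ℕ∞) (fun x : ℝ => Real.exp (-(a * x))) :=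
      Real.contDiff_exp.comp ((contDiff_const.mul contDiff_id).neg)
    have h3 : ContDiff ℝ (⊤ : ℕ∞) (fun x : ℝ => Real.exp (Real.exp x)) := Real.contDiff_exp.comp Real.contDiff_exp
    exact (h1.mul h2).mul h3
  have hcomp : HasCompactSupport k := by
    have hK : IsCompact (Real.log '' tsupport w) := by
      apply hcs.isCompact.image_of_continuousOn
      intro x hx
      exact (Real.continuousAt_log (ne_of_gt (hsupp hx))).continuousWithinAt
    apply HasCompactSupport.of_support_subset_isCompact hK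
    intro x hx
    have h1 : w (Real.exp x) ≠ 0 := by
      intro h0
      apply hx
      simp [hk, h0]
    exact ⟨Real.exp x, subset_tsupport w h1, Real.log_exp x⟩
  set S : 𝓢(ℝ, ℂ) := hcomp.toSchwartzMap hsm with hS
  have hSk : (S : ℝ → ℂ) = k := rfl
  refine ⟨𝓕 (S : ℝ → ℂ), ?_, fun x => ?_⟩
  · have := (𝓕 S).integrable (μ := volume)
    rwa [SchwartzMap.fourier_coe] at this
  · have hinv := S.continuous.fourierInv_fourier_eq S.integrable (by
      have := (𝓕 S).integrable (μ := volume)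
      rwa [SchwartzMap.fourier_coe] at this)
    have h1 : (𝓕⁻ (𝓕 (S : ℝ → ℂ))) x = k x := by rw [hinv]; rfl
    rw [Real.fourierInv_eq'] at h1
    have h2 : k x = ((w (Real.exp x) * Real.exp (-(a * x)) * Real.exp (Real.exp x) : ℝ) : ℂ) := rfl
    rw [← h2, ← h1]
    apply integral_congr_ae
    refine Filter.Eventually.of_forall fun ξ => ?_
    simp only [smul_eq_mul]
    congr 4
    simp [mul_comm]

theorem t_LEW (hLEM : S_LEM) : S_LEW := by
  obtain ⟨a, δ, ha, hδ, hδ1, C, T₀, hC, hT₀, H⟩ := hLEM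
  refine ⟨δ, hδ, hδ1, fun w hw hcs hsupp => ?_⟩
  obtain ⟨h, hint, hinv⟩ := invF a w hw hcs hsupp
  refine ⟨C * (∫ ξ, ‖h ξ‖) + 1, T₀, by
    have : 0 ≤ ∫ ξ, ‖h ξ‖ := integral_nonneg fun _ => norm_nonneg _
    positivity, hT₀, fun T τ hT => ?_⟩
  have hT0 : 0 < T := by linarith
  obtain ⟨hI, hB⟩ := H T hT
  set μ := volume.restrict (Ioi (0 : ℝ)) with hμ
  -- the integrand
  have e1 : ∀ u ∈ Ioi (0 : ℝ), ((w (u / T) * (ff u - D0 u) / u : ℝ) : ℂ) *
      cexp (-(I * ((τ * Real.log u : ℝ) : ℂ))) =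
      ∫ ξ : ℝ, ((W a T u * (ff u - D0 u) : ℝ) : ℂ) * cexp (-(I * (((τ - 2 * Real.pi * ξ) * Real.log u : ℝ) : ℂ))) *
        (cexp (-(((2 * Real.pi * (ξ * Real.log T) : ℝ) : ℂ) * I)) * h ξ) := by
    intro u hu
    have hu0 : (0 : ℝ) < u := hu
    have hv := hinv (Real.log (u / T))
    have huT : 0 < u / T := by positivity
    rw [Real.exp_log huT] at hv
    have e2 : (w (u / T) * (ff u - D0 u) / u : ℝ) =
        W a T u * (ff u - D0 u) * (w (u / T) * Real.exp (-(a * Real.log (u / T))) * Real.exp (u / T)) := by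
      unfold W
      have h1 : (u / T) ^ a * Real.exp (-(a * Real.log (u / T))) = 1 := by
        rw [Real.rpow_def_of_pos huT, ← Real.exp_add]
        simp [mul_comm]
      have h2 : Real.exp (-(u / T)) * Real.exp (u / T) = 1 := by
        rw [← Real.exp_add]; simp
      calc w (u / T) * (ff u - D0 u) / u = ((u / T) ^ a * Real.exp (-(a * Real.log (u / T)))) *
            (Real.exp (-(u / T)) * Real.exp (u / T)) * (w (u / T) * (ff u - D0 u) / u) := by
              rw [h1, h2]; ring
        _ = _ := by ring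
    rw [e2, Complex.ofReal_mul, hv, mul_assoc, mul_comm (∫ _, _) _, ← mul_assoc, ← integral_const_mul]
    apply integral_congr_ae
    refine Filter.Eventually.of_forall fun ξ => ?_
    simp only
    have e3 : cexp (((2 * Real.pi * (ξ * Real.log (u / T)) : ℝ) : ℂ) * I) * cexp (-(I * ((τ * Real.log u : ℝ) : ℂ))) =
        cexp (-(I * (((τ - 2 * Real.pi * ξ) * Real.log u : ℝ) : ℂ))) *
          cexp (-(((2 * Real.pi * (ξ * Real.log T) : ℝ) : ℂ) * I)) := by
      rw [← Complex.exp_add, ← Complex.exp_add, Real.log_div hu0.ne' hT0.ne']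
      congr 1
      push_cast
      ring
    calc _ = ((W a T u * (ff u - D0 u) : ℝ) : ℂ) *
          (cexp (((2 * Real.pi * (ξ * Real.log (u / T)) : ℝ) : ℂ) * I) * cexp (-(I * ((τ * Real.log u : ℝ) : ℂ)))) * h ξ := by
          ring
      _ = _ := by rw [e3]; ring
  rw [setIntegral_congr_fun measurableSet_Ioi e1]
  -- Fubini
  have hprod : Integrable (Function.uncurry fun (u ξ : ℝ) => ((W a T u * (ff u - D0 u) : ℝ) : ℂ) *
      cexp (-(I * (((τ - 2 * Real.pi * ξ) * Real.log u : ℝ) : ℂ))) *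
        (cexp (-(((2 * Real.pi * (ξ * Real.log T) : ℝ) : ℂ) * I)) * h ξ)) (μ.prod volume) := by
    have hP : Integrable (fun z : ℝ × ℝ => ((W a T z.1 * (ff z.1 - D0 z.1) : ℝ) : ℂ) * h z.2) (μ.prod volume) :=
      Integrable.mul_prod hI.ofReal hint
    have hm : Measurable (fun z : ℝ × ℝ => cexp (-(I * (((τ - 2 * Real.pi * z.2) * Real.log z.1 : ℝ) : ℂ))) *
        cexp (-(((2 * Real.pi * (z.2 * Real.log T) : ℝ) : ℂ) * I))) := by
      apply Measurable.mul
      · apply Complex.measurable_exp.comp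
        apply Measurable.neg
        apply Measurable.const_mul
        apply Complex.measurable_ofReal.comp
        exact ((measurable_const.sub (measurable_const.mul measurable_snd))).mul
          (Real.measurable_log.comp measurable_fst)
      · apply Complex.measurable_exp.comp
        apply Measurable.neg
        apply Measurable.mul_const
        apply Complex.measurable_ofReal.comp
        exact measurable_const.mul (measurable_snd.mul_const _)
    have hmul := hP.bdd_mul (c := 1) hm.aestronglyMeasurable (Filter.Eventually.of_forall fun z => by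
      rw [norm_mul, Complex.norm_exp, Complex.norm_exp]
      simp)
    refine hmul.congr (Filter.Eventually.of_forall fun z => ?_)
    simp only [Function.uncurry]
    ring
  rw [integral_integral_swap hprod]
  have hb : ∀ ξ : ℝ, ‖∫ u, ((W a T u * (ff u - D0 u) : ℝ) : ℂ) *
      cexp (-(I * (((τ - 2 * Real.pi * ξ) * Real.log u : ℝ) : ℂ))) *
        (cexp (-(((2 * Real.pi * (ξ * Real.log T) : ℝ) : ℂ) * I)) * h ξ) ∂μ‖ ≤ C * T ^ (-δ) * ‖h ξ‖ := by
    intro ξ
    rw [integral_mul_const, norm_mul, norm_mul]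
    have e4 : ‖cexp (-(((2 * Real.pi * (ξ * Real.log T) : ℝ) : ℂ) * I))‖ = 1 := by
      rw [Complex.norm_exp]; simp
    rw [e4, one_mul]
    exact mul_le_mul_of_nonneg_right (hB _) (norm_nonneg _)
  calc _ ≤ ∫ ξ, ‖∫ u, ((W a T u * (ff u - D0 u) : ℝ) : ℂ) *
      cexp (-(I * (((τ - 2 * Real.pi * ξ) * Real.log u : ℝ) : ℂ))) *
        (cexp (-(((2 * Real.pi * (ξ * Real.log T) : ℝ) : ℂ) * I)) * h ξ) ∂μ‖ := norm_integral_le_integral_norm _
    _ ≤ ∫ ξ, C * T ^ (-δ) * ‖h ξ‖ := by
        apply integral_mono_of_nonneg (Filter.Eventually.of_forall fun _ => norm_nonneg _)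
          (hint.norm.const_mul _) (Filter.Eventually.of_forall hb)
    _ = (C * ∫ ξ, ‖h ξ‖) * T ^ (-δ) := by rw [integral_const_mul]; ring
    _ ≤ _ := by
        have : 0 ≤ T ^ (-δ) := by positivity
        nlinarith

end

end Pool.Agent.J4H81.GD
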